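import Mathlib

set_option autoImplicit false

/-!
# Weak zero-[1,t]-sum-free subsets of cyclic groups: block constructions
-/

namespace Pool.Agent.H8.Ham

open Finset

/-- `A` is weak zero-`[1,t]`-sum-free in `ZMod n`: no collection of `h` pairwise distinct elements
of `A`, `1 ≤ h ≤ t`, sums to `0`. -/
def WeakZeroSumFree (n t : ℕ) (A : Finset (ZMod n)) : Prop :=
  ∀ B ⊆ A, 1 ≤ B.card → B.card ≤ t → ∑ x ∈ B, x ≠ 0

/-- The cyclic group of order `n` contains a weak zero-`[1,t]`-sum-free subset whose size is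
`⌊(n - 2) / t⌋ + t - 1` (the division of integers rounds down since `t ≥ 1`). -/
def Attains (t n : ℕ) : Prop :=
  ∃ A : Finset (ZMod n), WeakZeroSumFree n t A ∧ (A.card : ℤ) = ((n : ℤ) - 2) / (t : ℤ) + t - 1

/-- Transfer from natural numbers below `n`. -/
lemma attains_of_nat {t n : ℕ} (hn : 0 < n) (U : Finset ℕ) (hU : ∀ u ∈ U, u < n)
    (hcard : (U.card : ℤ) = ((n : ℤ) - 2) / (t : ℤ) + t - 1)
    (hfree : ∀ B ⊆ U, B.Nonempty → B.card ≤ t → ¬ n ∣ ∑ u ∈ B, u) : Attains t n := by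
  have : NeZero n := ⟨hn.ne'⟩
  have hinj : Set.InjOn (fun u : ℕ => (u : ZMod n)) (U : Set ℕ) := by
    intro u hu v hv huv
    have h1 := (ZMod.natCast_eq_natCast_iff' u v n).1 huv
    rwa [Nat.mod_eq_of_lt (hU u hu), Nat.mod_eq_of_lt (hU v hv)] at h1
  refine ⟨U.image (fun u : ℕ => (u : ZMod n)), ?_, ?_⟩
  · intro B hB hB1 hBt hsum
    -- pull back the subset
    set C : Finset ℕ := U.filter (fun u => ((u : ℕ) : ZMod n) ∈ B) with hC
    have hCU : C ⊆ U := filter_subset _ _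
    have hCB : C.image (fun u : ℕ => (u : ZMod n)) = B := by
      ext x
      constructor
      · intro hx
        obtain ⟨u, hu, rfl⟩ := mem_image.1 hx
        exact (mem_filter.1 hu).2
      · intro hx
        obtain ⟨u, hu, rfl⟩ := mem_image.1 (hB hx)
        exact mem_image.2 ⟨u, mem_filter.2 ⟨hu, hx⟩, rfl⟩
    have hinjC : Set.InjOn (fun u : ℕ => (u : ZMod n)) (C : Set ℕ) :=
      hinj.mono (by exact_mod_cast hCU)
    have hcardC : C.card = B.card := by
      rw [← hCB, card_image_of_injOn hinjC]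
    have hsumC : ((∑ u ∈ C, u : ℕ) : ZMod n) = ∑ x ∈ B, x := by
      rw [← hCB, sum_image hinjC]
      push_cast
      rfl
    refine hfree C hCU (card_pos.1 (by omega)) (by omega) ?_
    rw [← ZMod.natCast_eq_zero_iff, hsumC, hsum]
  · rw [card_image_of_injOn hinj]
    exact hcard

/-- Block construction: elements `c + N y` with `(c, y) ∈ S`. -/
lemma attains_of_block {t n N h : ℕ} (hn : n = N * h) (hN : 0 < N) (hh : 0 < h)
    (S : Finset (ℕ × ℕ)) (hS : ∀ p ∈ S, p.1 < N ∧ p.2 < h)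
    (hcard : (S.card : ℤ) = ((n : ℤ) - 2) / (t : ℤ) + t - 1)
    (hle : ∀ B ⊆ S, B.Nonempty → B.card ≤ t → ∑ p ∈ B, p.1 ≤ N)
    (h0 : ∀ B ⊆ S, B.Nonempty → B.card ≤ t → ∑ p ∈ B, p.1 = 0 → ¬ h ∣ ∑ p ∈ B, p.2)
    (h1 : ∀ B ⊆ S, B.Nonempty → B.card ≤ t → ∑ p ∈ B, p.1 = N → ¬ h ∣ 1 + ∑ p ∈ B, p.2) :
    Attains t n := by
  have hinj : Set.InjOn (fun p : ℕ × ℕ => p.1 + N * p.2) (S : Set (ℕ × ℕ)) := by
    intro p hp q hq hpq
    simp only at hpq
    have hp1 := (hS p hp).1
    have hq1 := (hS q hq).1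
    have e1 : p.1 = q.1 := by
      have := congrArg (fun z => z % N) hpq
      simpa [Nat.add_mul_mod_self_left, Nat.mod_eq_of_lt hp1, Nat.mod_eq_of_lt hq1] using this
    have e2 : p.2 = q.2 := by
      rw [e1] at hpq
      exact Nat.eq_of_mul_eq_mul_left hN (Nat.add_left_cancel hpq)
    exact Prod.ext e1 e2
  refine attains_of_nat (by rw [hn]; positivity) (S.image (fun p => p.1 + N * p.2)) ?_ ?_ ?_
  · intro u hu
    obtain ⟨p, hp, rfl⟩ := mem_image.1 hu
    obtain ⟨hp1, hp2⟩ := hS p hp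
    rw [hn]
    calc p.1 + N * p.2 < N + N * p.2 := by omega
      _ = N * (p.2 + 1) := by ring
      _ ≤ N * h := Nat.mul_le_mul_left _ hp2
  · rw [card_image_of_injOn hinj]; exact hcard
  · intro B hB hBne hBt hdvd
    set C : Finset (ℕ × ℕ) := S.filter (fun p => p.1 + N * p.2 ∈ B) with hC
    have hCS : C ⊆ S := filter_subset _ _
    have hCB : C.image (fun p : ℕ × ℕ => p.1 + N * p.2) = B := by
      ext x
      constructor
      · intro hx
        obtain ⟨u, hu, rfl⟩ := mem_image.1 hx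
        exact (mem_filter.1 hu).2
      · intro hx
        obtain ⟨u, hu, rfl⟩ := mem_image.1 (hB hx)
        exact mem_image.2 ⟨u, mem_filter.2 ⟨hu, hx⟩, rfl⟩
    have hinjC : Set.InjOn (fun p : ℕ × ℕ => p.1 + N * p.2) (C : Set (ℕ × ℕ)) :=
      hinj.mono (by exact_mod_cast hCS)
    have hcardC : C.card = B.card := by
      rw [← hCB, card_image_of_injOn hinjC]
    have hsumC : ∑ x ∈ B, x = ∑ p ∈ C, p.1 + N * ∑ p ∈ C, p.2 := by
      rw [← hCB, sum_image hinjC, sum_add_distrib, mul_sum]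
    have hCne : C.Nonempty := card_pos.1 (by rw [hcardC]; exact card_pos.2 hBne)
    have hCt : C.card ≤ t := by omega
    rw [hsumC, hn] at hdvd
    have hNd : N ∣ ∑ p ∈ C, p.1 := by
      have h2 : N ∣ ∑ p ∈ C, p.1 + N * ∑ p ∈ C, p.2 := dvd_trans (dvd_mul_right N h) hdvd
      exact (Nat.dvd_add_left (dvd_mul_right N _)).1 h2
    have hleC := hle C hCS hCne hCt
    obtain ⟨q, hq⟩ := hNd
    have hq1 : q ≤ 1 := by
      by_contra hcon
      push Not at hcon
      have : N * 2 ≤ N * q := Nat.mul_le_mul_left _ hcon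
      omega
    interval_cases q
    · rw [hq, mul_zero, zero_add] at hdvd
      exact h0 C hCS hCne hCt (by rw [hq, mul_zero]) (Nat.dvd_of_mul_dvd_mul_left hN hdvd)
    · rw [hq, mul_one] at hdvd
      have e : N + N * ∑ p ∈ C, p.2 = N * (1 + ∑ p ∈ C, p.2) := by ring
      rw [e] at hdvd
      exact h1 C hCS hCne hCt (by rw [hq, mul_one]) (Nat.dvd_of_mul_dvd_mul_left hN hdvd)

/-- The set of the block constructions. -/
def blockSet (K h : ℕ) (X Z : Finset ℕ) : Finset (ℕ × ℕ) :=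
  (Icc 1 K ×ˢ range h) ∪ ({K + 1} ×ˢ X) ∪ ({0} ×ˢ Z)

lemma blockSet_card (K h : ℕ) (X Z : Finset ℕ) :
    (blockSet K h X Z).card = K * h + X.card + Z.card := by
  unfold blockSet
  rw [card_union_of_disjoint, card_union_of_disjoint]
  · simp
  · rw [disjoint_left]
    rintro ⟨c, y⟩ h1 h2
    simp only [mem_product, mem_Icc, mem_singleton] at h1 h2
    omega
  · rw [disjoint_left]
    rintro ⟨c, y⟩ h1 h2
    simp only [mem_union, mem_product, mem_Icc, mem_singleton] at h1 h2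
    omega

lemma mem_blockSet {K h : ℕ} {X Z : Finset ℕ} {p : ℕ × ℕ} : p ∈ blockSet K h X Z ↔
    ((1 ≤ p.1 ∧ p.1 ≤ K) ∧ p.2 < h) ∨ (p.1 = K + 1 ∧ p.2 ∈ X) ∨ (p.1 = 0 ∧ p.2 ∈ Z) := by
  unfold blockSet
  simp only [mem_union, mem_product, mem_Icc, mem_singleton, mem_range]
  tauto

/-- Subsets of the block set lying in class `0`. -/
lemma sum_zero_case {K h t : ℕ} {X Z : Finset ℕ}
    (hZ : ∀ D ⊆ Z, D.Nonempty → D.card ≤ t → ¬ h ∣ ∑ y ∈ D, y)
    {B : Finset (ℕ × ℕ)} (hB : B ⊆ blockSet K h X Z) (hne : B.Nonempty) (hBt : B.card ≤ t)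
    (hsum : ∑ p ∈ B, p.1 = 0) : ¬ h ∣ ∑ p ∈ B, p.2 := by
  have hzero : ∀ p ∈ B, p.1 = 0 := by
    intro p hp
    exact (sum_eq_zero_iff.1 hsum) p hp
  have hinj : Set.InjOn Prod.snd (B : Set (ℕ × ℕ)) := by
    intro p hp q hq hpq
    exact Prod.ext ((hzero p hp).trans (hzero q hq).symm) hpq
  have h1 : ∑ y ∈ B.image Prod.snd, y = ∑ p ∈ B, p.2 := sum_image hinj
  rw [← h1]
  refine hZ _ ?_ (hne.image _) ?_
  · intro y hy
    obtain ⟨p, hp, rfl⟩ := mem_image.1 hy
    have h2 := mem_blockSet.1 (hB hp)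
    have h3 := hzero p hp
    rcases h2 with h2 | h2 | h2
    · omega
    · omega
    · exact h2.2
  · rw [card_image_of_injOn hinj]; exact hBt

/-- Family 1: multiplying `h` by `t K + 1`. -/
lemma attains_mul {t h K : ℕ} (ht : 0 < t) (hh : 0 < h) (hA : Attains t h) :
    Attains t (h * (t * K + 1)) := by
  obtain ⟨A, hA1, hA2⟩ := hA
  have : NeZero h := ⟨hh.ne'⟩
  set Z : Finset ℕ := A.image ZMod.val with hZdef
  have hval : Function.Injective (ZMod.val : ZMod h → ℕ) := ZMod.val_injective h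
  have hZcard : Z.card = A.card := card_image_of_injective _ hval
  have hZlt : ∀ y ∈ Z, y < h := by
    intro y hy
    obtain ⟨x, hx, rfl⟩ := mem_image.1 hy
    exact ZMod.val_lt x
  have hZfree : ∀ D ⊆ Z, D.Nonempty → D.card ≤ t → ¬ h ∣ ∑ y ∈ D, y := by
    intro D hD hDne hDt hdvd
    have hinj : Set.InjOn (fun y : ℕ => (y : ZMod h)) (D : Set ℕ) := by
      intro u hu v hv huv
      have h1 := (ZMod.natCast_eq_natCast_iff' u v h).1 huv
      rwa [Nat.mod_eq_of_lt (hZlt u (hD hu)), Nat.mod_eq_of_lt (hZlt v (hD hv))] at h1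
    refine hA1 (D.image (fun y : ℕ => (y : ZMod h))) ?_ ?_ ?_ ?_
    · intro x hx
      obtain ⟨y, hy, rfl⟩ := mem_image.1 hx
      obtain ⟨z, hz, rfl⟩ := mem_image.1 (hD hy)
      simpa using hz
    · rw [card_image_of_injOn hinj]; exact card_pos.2 hDne
    · rw [card_image_of_injOn hinj]; exact hDt
    · rw [sum_image hinj]
      have h2 := (ZMod.natCast_eq_zero_iff (∑ y ∈ D, y) h).2 hdvd
      push_cast at h2
      exact h2
  refine attains_of_block (N := t * K + 1) (h := h) (by ring) (by omega) hh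
    (blockSet K h ∅ Z) ?_ ?_ ?_ ?_ ?_
  · intro p hp
    rcases mem_blockSet.1 hp with h2 | h2 | h2
    · refine ⟨?_, h2.2⟩
      have : p.1 ≤ t * K := le_trans h2.1.2 (Nat.le_mul_of_pos_left K ht)
      omega
    · simp at h2
    · exact ⟨by omega, hZlt _ h2.2⟩
  · rw [blockSet_card, hZcard]
    push_cast
    rw [hA2, card_empty]
    have e : ((h : ℤ) * (t * K + 1) - 2) = ((h : ℤ) - 2) + (K * h) * t := by ring
    rw [e, Int.add_mul_ediv_right _ _ (by exact_mod_cast ht.ne')]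
    push_cast
    ring
  · intro B hB hne hBt
    calc ∑ p ∈ B, p.1 ≤ ∑ _p ∈ B, K := by
          apply sum_le_sum
          intro p hp
          rcases mem_blockSet.1 (hB hp) with h2 | h2 | h2
          · exact h2.1.2
          · simp at h2
          · omega
      _ = B.card * K := by rw [sum_const, smul_eq_mul]
      _ ≤ t * K := Nat.mul_le_mul_right _ hBt
      _ ≤ t * K + 1 := Nat.le_succ _
  · intro B hB hne hBt hsum
    exact sum_zero_case hZfree hB hne hBt hsum
  · intro B hB hne hBt hsum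
    exfalso
    have : ∑ p ∈ B, p.1 ≤ t * K := by
      calc ∑ p ∈ B, p.1 ≤ ∑ _p ∈ B, K := by
            apply sum_le_sum
            intro p hp
            rcases mem_blockSet.1 (hB hp) with h2 | h2 | h2
            · exact h2.1.2
            · simp at h2
            · omega
        _ = B.card * K := by rw [sum_const, smul_eq_mul]
        _ ≤ t * K := Nat.mul_le_mul_right _ hBt
    omega

/-- Family 2: `n = t (K + 1) h`. -/
lemma attains_block2 {t h K : ℕ} (ht : 2 ≤ t) (hh : 0 < h) (X Z : Finset ℕ)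
    (hX : ∀ x ∈ X, x < h) (hZ : ∀ y ∈ Z, y < h)
    (hZfree : ∀ D ⊆ Z, D.Nonempty → D.card ≤ t → ¬ h ∣ ∑ y ∈ D, y)
    (hXfree : ∀ D ⊆ X, D.card = t → ¬ h ∣ 1 + ∑ y ∈ D, y)
    (hcard : X.card + Z.card + 2 = h + t) :
    Attains t (t * (K + 1) * h) := by
  have hKt : K + 1 < t * (K + 1) := by nlinarith
  refine attains_of_block (N := t * (K + 1)) (h := h) rfl (by omega) hh
    (blockSet K h X Z) ?_ ?_ ?_ ?_ ?_
  · intro p hp
    rcases mem_blockSet.1 hp with h2 | h2 | h2
    · exact ⟨by omega, h2.2⟩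
    · exact ⟨by omega, hX _ h2.2⟩
    · exact ⟨by omega, hZ _ h2.2⟩
  · rw [blockSet_card]
    push_cast
    have e : ((t : ℤ) * (K + 1) * h - 2) = ((t : ℤ) - 2) + ((K + 1) * h - 1) * t := by ring
    rw [e, Int.add_mul_ediv_right _ _ (by exact_mod_cast (by omega : t ≠ 0)),
      Int.ediv_eq_zero_of_lt (by omega) (by omega)]
    have hc : (X.card : ℤ) + Z.card + 2 = h + t := by exact_mod_cast hcard
    linarith
  · intro B hB hne hBt
    calc ∑ p ∈ B, p.1 ≤ ∑ _p ∈ B, (K + 1) := by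
          apply sum_le_sum
          intro p hp
          rcases mem_blockSet.1 (hB hp) with h2 | h2 | h2 <;> omega
      _ = B.card * (K + 1) := by rw [sum_const, smul_eq_mul]
      _ ≤ t * (K + 1) := Nat.mul_le_mul_right _ hBt
  · intro B hB hne hBt hsum
    exact sum_zero_case hZfree hB hne hBt hsum
  · intro B hB hne hBt hsum
    -- all elements are in class `K + 1` and there are `t` of them
    have hle : ∀ p ∈ B, p.1 ≤ K + 1 := by
      intro p hp
      rcases mem_blockSet.1 (hB hp) with h2 | h2 | h2 <;> omega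
    have h3 : B.card = t := by
      by_contra hcon
      have hlt : B.card < t := lt_of_le_of_ne hBt hcon
      have : ∑ p ∈ B, p.1 ≤ B.card * (K + 1) := by
        calc ∑ p ∈ B, p.1 ≤ ∑ _p ∈ B, (K + 1) := sum_le_sum hle
          _ = B.card * (K + 1) := by rw [sum_const, smul_eq_mul]
      have h4 : B.card * (K + 1) < t * (K + 1) := Nat.mul_lt_mul_of_pos_right hlt (by omega)
      omega
    have h5 : ∀ p ∈ B, p.1 = K + 1 := by
      have h6 : ∑ p ∈ B, p.1 = ∑ _p ∈ B, (K + 1) := by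
        rw [hsum, sum_const, smul_eq_mul, h3]
      exact (sum_eq_sum_iff_of_le hle).1 h6
    have hinj : Set.InjOn Prod.snd (B : Set (ℕ × ℕ)) := by
      intro p hp q hq hpq
      exact Prod.ext ((h5 p hp).trans (h5 q hq).symm) hpq
    have h7 : ∑ y ∈ B.image Prod.snd, y = ∑ p ∈ B, p.2 := sum_image hinj
    rw [← h7]
    refine hXfree _ ?_ (by rw [card_image_of_injOn hinj]; exact h3)
    intro y hy
    obtain ⟨p, hp, rfl⟩ := mem_image.1 hy
    have h8 := h5 p hp
    rcases mem_blockSet.1 (hB hp) with h2 | h2 | h2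
    · omega
    · exact h2.2
    · omega

end Pool.Agent.H8.Ham
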