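import Pool.Agent.H8.LTSymbol

set_option autoImplicit false

open MeasureTheory Real Filter Topology
open scoped FourierTransform RealInnerProductSpace SchwartzMap

namespace Pool.Agent.H8.LT

/-- Kinetic energy. -/
noncomputable def K (f : 𝓢(ℝ, ℂ)) : ℝ := ∫ ξ : ℝ, w ξ * ‖𝓕 (fun x : ℝ => f x) ξ‖ ^ 2

/-- Squared norm. -/
noncomputable def N (f : 𝓢(ℝ, ℂ)) : ℝ := ∫ x : ℝ, ‖f x‖ ^ 2

/-- Energy. -/
noncomputable def En (W : ℝ → ℝ) (f : 𝓢(ℝ, ℂ)) : ℝ := K f - ∫ x : ℝ, W x * ‖f x‖ ^ 2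

lemma fourier_fun (f : 𝓢(ℝ, ℂ)) (ξ : ℝ) : 𝓕 (fun x : ℝ => f x) ξ = (𝓕 f : 𝓢(ℝ, ℂ)) ξ := rfl

lemma w_le (ξ : ℝ) : w ξ ≤ (2 * π) ^ (5 / 2 : ℝ) * (1 + |ξ| ^ 3) := by
  unfold w
  rw [Real.mul_rpow (by positivity) (abs_nonneg _)]
  apply mul_le_mul_of_nonneg_left _ (by positivity)
  rcases le_total 1 |ξ| with h | h
  · calc |ξ| ^ (5 / 2 : ℝ) ≤ |ξ| ^ (3 : ℝ) := Real.rpow_le_rpow_of_exponent_le h (by norm_num)
      _ = |ξ| ^ 3 := by norm_cast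
      _ ≤ 1 + |ξ| ^ 3 := by linarith
  · calc |ξ| ^ (5 / 2 : ℝ) ≤ 1 := Real.rpow_le_one (abs_nonneg _) h (by norm_num)
      _ ≤ 1 + |ξ| ^ 3 := by
        have : 0 ≤ |ξ| ^ 3 := by positivity
        linarith

lemma schwartz_bdd (f : 𝓢(ℝ, ℂ)) : ∃ C : ℝ, 0 ≤ C ∧ ∀ x, ‖f x‖ ≤ C := by
  obtain ⟨C, hC0, hC⟩ := f.decay 0 0
  exact ⟨C, hC0.le, fun x => by simpa using hC x⟩

lemma integrable_sq (f : 𝓢(ℝ, ℂ)) : Integrable (fun x => ‖f x‖ ^ 2) := by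
  obtain ⟨C, hC0, hC⟩ := schwartz_bdd f
  have h := (f.integrable (μ := volume)).norm.bdd_mul (c := C) (f := fun x => ‖f x‖)
    f.continuous.norm.aestronglyMeasurable
    (Filter.Eventually.of_forall (fun x => by rw [norm_norm]; exact hC x))
  refine h.congr (Filter.Eventually.of_forall (fun x => ?_))
  simp only
  ring

lemma integrable_w_sq (f : 𝓢(ℝ, ℂ)) : Integrable (fun x => w x * ‖f x‖ ^ 2) := by
  obtain ⟨C, hC0, hC⟩ := schwartz_bdd f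
  have h0 := f.integrable_pow_mul (μ := volume) 0
  have h3 := f.integrable_pow_mul (μ := volume) 3
  refine Integrable.mono' ((h0.add h3).const_mul ((2 * π) ^ (5 / 2 : ℝ) * C))
    (w_continuous.mul (f.continuous.norm.pow 2)).aestronglyMeasurable
    (Filter.Eventually.of_forall (fun ξ => ?_))
  rw [Real.norm_of_nonneg (mul_nonneg (w_nonneg ξ) (by positivity))]
  simp only [Pi.add_apply, pow_zero, one_mul, Real.norm_eq_abs]
  have h1 := w_le ξ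
  have h2 := hC ξ
  have h4 : ‖f ξ‖ ^ 2 ≤ C * ‖f ξ‖ := by
    rw [sq]; exact mul_le_mul_of_nonneg_right h2 (norm_nonneg _)
  calc w ξ * ‖f ξ‖ ^ 2 ≤ ((2 * π) ^ (5 / 2 : ℝ) * (1 + |ξ| ^ 3)) * (C * ‖f ξ‖) :=
        mul_le_mul h1 h4 (by positivity) (by positivity)
    _ = (2 * π) ^ (5 / 2 : ℝ) * C * (‖f ξ‖ + |ξ| ^ 3 * ‖f ξ‖) := by ring

lemma integrable_W_sq {W : ℝ → ℝ} (hW : Integrable W) (f : 𝓢(ℝ, ℂ)) :
    Integrable (fun x => W x * ‖f x‖ ^ 2) := by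
  obtain ⟨C, hC0, hC⟩ := schwartz_bdd f
  refine hW.mul_bdd (c := C ^ 2) (f.continuous.norm.pow 2).aestronglyMeasurable
    (Filter.Eventually.of_forall (fun x => ?_))
  rw [norm_pow, norm_norm]
  exact pow_le_pow_left₀ (norm_nonneg _) (hC x) 2

lemma K_nonneg (f : 𝓢(ℝ, ℂ)) : 0 ≤ K f :=
  integral_nonneg (fun ξ => mul_nonneg (w_nonneg ξ) (by positivity))

lemma N_nonneg (f : 𝓢(ℝ, ℂ)) : 0 ≤ N f := integral_nonneg (fun ξ => by positivity)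

lemma N_fourier (f : 𝓢(ℝ, ℂ)) : ∫ ξ, ‖(𝓕 f : 𝓢(ℝ, ℂ)) ξ‖ ^ 2 = N f :=
  f.integral_norm_sq_fourier

lemma N_pos {f : 𝓢(ℝ, ℂ)} (hf : f ≠ 0) : 0 < N f := by
  unfold N
  rw [integral_pos_iff_support_of_nonneg (fun ξ => by positivity) (integrable_sq f)]
  have ho : IsOpen (Function.support (fun x => ‖f x‖ ^ 2)) :=
    (f.continuous.norm.pow 2).isOpen_support
  refine ho.measure_pos volume ?_
  by_contra hcon
  rw [Set.not_nonempty_iff_eq_empty] at hcon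
  apply hf
  ext x
  by_contra hx
  have : x ∈ Function.support (fun x => ‖f x‖ ^ 2) := by
    simp only [Function.mem_support]
    have : ‖f x‖ ≠ 0 := by simpa using hx
    positivity
  rw [hcon] at this
  exact this

/-- Abstract optimisation form of the Cauchy-Schwarz inequality. -/
lemma sq_le_of_forall {I A B : ℝ} (hI : 0 ≤ I) (hA : 0 < A) (hB : 0 ≤ B)
    (h : ∀ t : ℝ, 0 < t → 2 * I ≤ t * A + B / t) : I ^ 2 ≤ A * B := by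
  rcases hI.eq_or_lt with h0 | h0
  · rw [← h0, zero_pow two_ne_zero]; positivity
  · have h1 := h (I / A) (by positivity)
    have h2 : I / A * A = I := by field_simp
    have h3 : B / (I / A) = A * B / I := by field_simp
    rw [h2, h3] at h1
    have h4 : I ≤ A * B / I := by linarith
    rw [le_div_iff₀ h0] at h4
    nlinarith

lemma int_R_pos {l : ℝ} (hl : 0 < l) : 0 < ∫ ξ, R l ξ := by
  rw [integral_pos_iff_support_of_nonneg (fun ξ => (R_pos hl ξ).le) (R_integrable hl)]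
  have : Function.support (R l) = Set.univ := by
    ext ξ
    simp [(R_pos hl ξ).ne']
  rw [this]
  simp

lemma energy_l (f : 𝓢(ℝ, ℂ)) (l : ℝ) :
    ∫ ξ, (l + w ξ) * ‖(𝓕 f : 𝓢(ℝ, ℂ)) ξ‖ ^ 2 = l * N f + K f := by
  have h : ∀ ξ, (l + w ξ) * ‖(𝓕 f : 𝓢(ℝ, ℂ)) ξ‖ ^ 2 =
      l * ‖(𝓕 f : 𝓢(ℝ, ℂ)) ξ‖ ^ 2 + w ξ * ‖(𝓕 f : 𝓢(ℝ, ℂ)) ξ‖ ^ 2 := fun ξ => by ring
  simp_rw [h]
  rw [integral_add ((integrable_sq _).const_mul l) (integrable_w_sq _), integral_const_mul,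
    N_fourier]
  rfl

lemma norm_le_int (f : 𝓢(ℝ, ℂ)) (x : ℝ) : ‖f x‖ ≤ ∫ ξ, ‖(𝓕 f : 𝓢(ℝ, ℂ)) ξ‖ := by
  have h1 : f = 𝓕⁻ (𝓕 f : 𝓢(ℝ, ℂ)) := (FourierTransform.fourierInv_fourier_eq f).symm
  conv_lhs => rw [h1]
  rw [SchwartzMap.fourierInv_coe, Real.fourierInv_eq']
  refine (norm_integral_le_integral_norm _).trans (le_of_eq ?_)
  congr 1
  funext ξ
  rw [norm_smul, Complex.norm_exp_ofReal_mul_I, one_mul]

/-- The sharp one-particle inequality. -/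
lemma sup_bound (f : 𝓢(ℝ, ℂ)) {l : ℝ} (hl : 0 < l) (x : ℝ) :
    ‖f x‖ ^ 2 ≤ (∫ ξ, R l ξ) * (l * N f + K f) := by
  have h1 : ‖f x‖ ^ 2 ≤ (∫ ξ, ‖(𝓕 f : 𝓢(ℝ, ℂ)) ξ‖) ^ 2 :=
    pow_le_pow_left₀ (norm_nonneg _) (norm_le_int f x) 2
  refine h1.trans ?_
  refine sq_le_of_forall (integral_nonneg (fun ξ => norm_nonneg _)) (int_R_pos hl)
    (by have := N_nonneg f; have := K_nonneg f; positivity) (fun t ht => ?_)
  have i1 : Integrable (fun ξ => t * R l ξ) := (R_integrable hl).const_mul t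
  have i2 : Integrable (fun ξ => (l + w ξ) * ‖(𝓕 f : 𝓢(ℝ, ℂ)) ξ‖ ^ 2) := by
    have h : (fun ξ => (l + w ξ) * ‖(𝓕 f : 𝓢(ℝ, ℂ)) ξ‖ ^ 2) =
      fun ξ => l * ‖(𝓕 f : 𝓢(ℝ, ℂ)) ξ‖ ^ 2 + w ξ * ‖(𝓕 f : 𝓢(ℝ, ℂ)) ξ‖ ^ 2 := by
        funext ξ; ring
    rw [h]
    exact ((integrable_sq _).const_mul l).add (integrable_w_sq _)
  have h2 : t * (∫ ξ, R l ξ) + (l * N f + K f) / t =
      ∫ ξ, (t * R l ξ + ((l + w ξ) * ‖(𝓕 f : 𝓢(ℝ, ℂ)) ξ‖ ^ 2) / t) := by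
    rw [integral_add i1 (i2.div_const t), integral_const_mul, integral_div, energy_l]
  rw [h2, ← integral_const_mul]
  refine integral_mono (((𝓕 f : 𝓢(ℝ, ℂ)).integrable.norm).const_mul 2)
    (i1.add (i2.div_const t)) (fun ξ => ?_)
  simp only
  set a := ‖(𝓕 f : 𝓢(ℝ, ℂ)) ξ‖ with ha
  have hd := den_pos hl ξ
  unfold R
  set d := l + w ξ with hdd
  have h3 : t * (1 / d) + d * a ^ 2 / t - 2 * a = (t - d * a) ^ 2 / (d * t) := by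
    field_simp
    ring
  have h4 : 0 ≤ (t - d * a) ^ 2 / (d * t) := by positivity
  linarith

/-- Scaling of resolvent integrals. -/
lemma int_R_scale {y : ℝ} (hy : 0 < y) (F : ℝ → ℝ) :
    ∫ ξ, F ξ * R (y ^ (5 / 2 : ℝ)) ξ = y ^ (-(3 / 2) : ℝ) * ∫ η, F (y * η) * R 1 η := by
  have h := Measure.integral_comp_mul_left (fun ξ => F ξ * R (y ^ (5 / 2 : ℝ)) ξ) y
  have h1 : ∀ η, F (y * η) * R (y ^ (5 / 2 : ℝ)) (y * η) =
      y ^ (-(5 / 2) : ℝ) * (F (y * η) * R 1 η) := by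
    intro η
    unfold R
    rw [w_mul hy.le, Real.rpow_neg hy.le]
    have h5 : 0 < y ^ (5 / 2 : ℝ) := by positivity
    have h6 := den_pos one_pos η
    have h7 : y ^ (5 / 2 : ℝ) + y ^ (5 / 2 : ℝ) * w η = y ^ (5 / 2 : ℝ) * (1 + w η) := by ring
    rw [h7]
    field_simp
  simp_rw [h1] at h
  rw [integral_const_mul, abs_of_pos (inv_pos.2 hy), smul_eq_mul] at h
  have h8 : ∫ ξ, F ξ * R (y ^ (5 / 2 : ℝ)) ξ = y * (y ^ (-(5 / 2) : ℝ) *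
      ∫ η, F (y * η) * R 1 η) := by
    rw [h]; field_simp
  rw [h8, ← mul_assoc]
  congr 1
  nth_rewrite 1 [← Real.rpow_one y]
  rw [← Real.rpow_add hy]
  norm_num

lemma g_zero : g 0 = ∫ ξ, R 1 ξ := by
  unfold g
  congr 1
  funext ξ
  simp

lemma int_R {y : ℝ} (hy : 0 < y) : ∫ ξ, R (y ^ (5 / 2 : ℝ)) ξ = y ^ (-(3 / 2) : ℝ) * g 0 := by
  have h := int_R_scale hy (fun _ => 1)
  simpa [g_zero] using h

/-- Lower bound for the energy. -/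
lemma En_ge {W : ℝ → ℝ} (hW0 : ∀ x, 0 ≤ W x) (hW : Integrable W) (f : 𝓢(ℝ, ℂ)) :
    -((g 0 * ∫ x, W x) ^ (5 / 3 : ℝ)) * N f ≤ En W f := by
  have hg := g_zero_pos
  have hM : 0 ≤ ∫ x, W x := integral_nonneg hW0
  have hK := K_nonneg f
  have hN := N_nonneg f
  -- a bound for the potential energy
  have hpot : ∀ l : ℝ, 0 < l → ∫ x, W x * ‖f x‖ ^ 2 ≤
      (∫ x, W x) * ((∫ ξ, R l ξ) * (l * N f + K f)) := by
    intro l hl
    rw [← integral_mul_const]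
    refine integral_mono (integrable_W_sq hW f) (hW.mul_const _) (fun x => ?_)
    exact mul_le_mul_of_nonneg_left (sup_bound f hl x) (hW0 x)
  unfold En
  rcases hM.eq_or_lt with h0 | h0
  · have h1 := hpot 1 one_pos
    rw [← h0, zero_mul] at h1
    rw [← h0, mul_zero, Real.zero_rpow (by norm_num)]
    linarith
  · set M := ∫ x, W x with hMdef
    have hgM : 0 < g 0 * M := by positivity
    set y : ℝ := (g 0 * M) ^ (2 / 3 : ℝ) with hy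
    have hypos : 0 < y := by positivity
    have hy1 : y ^ (5 / 2 : ℝ) = (g 0 * M) ^ (5 / 3 : ℝ) := by
      rw [hy, ← Real.rpow_mul hgM.le]; norm_num
    have hy2 : y ^ (-(3 / 2) : ℝ) = (g 0 * M)⁻¹ := by
      rw [hy, ← Real.rpow_mul hgM.le, ← Real.rpow_neg_one]; norm_num
    have h1 := hpot (y ^ (5 / 2 : ℝ)) (by positivity)
    rw [int_R hypos, hy2] at h1
    have h2 : M * ((g 0 * M)⁻¹ * g 0 * (y ^ (5 / 2 : ℝ) * N f + K f)) =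
        y ^ (5 / 2 : ℝ) * N f + K f := by
      field_simp
    rw [h2, hy1] at h1
    linarith

/-- The set whose infimum is the min-max value. -/
def minmaxSet (W : ℝ → ℝ) (n : ℕ) : Set ℝ :=
  {t : ℝ | ∃ V : Submodule ℂ 𝓢(ℝ, ℂ), Module.finrank ℂ V = n ∧
    t = sSup {u : ℝ | ∃ f ∈ V, (∫ x, ‖f x‖ ^ 2) = 1 ∧ u = En W f}}

lemma exists_normalized {V : Submodule ℂ 𝓢(ℝ, ℂ)} (hV : Module.finrank ℂ V ≠ 0) :
    ∃ f ∈ V, (∫ x, ‖f x‖ ^ 2) = 1 := by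
  have hne : V ≠ ⊥ := by
    rintro rfl
    exact hV (finrank_bot ℂ _)
  obtain ⟨f, hf, hf0⟩ := V.exists_mem_ne_zero_of_ne_bot hne
  have hN := N_pos hf0
  refine ⟨((Real.sqrt (N f))⁻¹ : ℂ) • f, V.smul_mem _ hf, ?_⟩
  have h1 : ∀ x, ‖(((Real.sqrt (N f))⁻¹ : ℂ) • f) x‖ ^ 2 = (N f)⁻¹ * ‖f x‖ ^ 2 := by
    intro x
    rw [smul_apply, norm_smul, mul_pow, norm_inv, Complex.norm_real,
      Real.norm_of_nonneg (Real.sqrt_nonneg _), inv_pow, Real.sq_sqrt hN.le]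
  simp_rw [h1]
  rw [integral_const_mul]
  exact inv_mul_cancel₀ hN.ne'

lemma minmax_ge {W : ℝ → ℝ} (hW0 : ∀ x, 0 ≤ W x) (hW : Integrable W) {n : ℕ} (hn : n ≠ 0)
    {t : ℝ} (ht : t ∈ minmaxSet W n) : -((g 0 * ∫ x, W x) ^ (5 / 3 : ℝ)) ≤ t := by
  obtain ⟨V, hV, rfl⟩ := ht
  obtain ⟨f, hf, hf1⟩ := exists_normalized (V := V) (by rw [hV]; exact hn)
  have h1 := En_ge hW0 hW f
  rw [show N f = 1 from hf1, mul_one] at h1
  by_cases hb : BddAbove {u : ℝ | ∃ f ∈ V, (∫ x, ‖f x‖ ^ 2) = 1 ∧ u = En W f}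
  · exact h1.trans (le_csSup hb ⟨f, hf, hf1, rfl⟩)
  · rw [Real.sSup_of_not_bddAbove hb]
    have hg := g_zero_pos
    have hM : 0 ≤ ∫ x, W x := integral_nonneg hW0
    have : 0 ≤ (g 0 * ∫ x, W x) ^ (5 / 3 : ℝ) := by positivity
    linarith

lemma sInf_ge {W : ℝ → ℝ} (hW0 : ∀ x, 0 ≤ W x) (hW : Integrable W) {n : ℕ} (hn : n ≠ 0) :
    -((g 0 * ∫ x, W x) ^ (5 / 3 : ℝ)) ≤ sInf (minmaxSet W n) := by
  by_cases hne : (minmaxSet W n).Nonempty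
  · exact le_csInf hne (fun t ht => minmax_ge hW0 hW hn ht)
  · rw [Set.not_nonempty_iff_eq_empty] at hne
    rw [hne, Real.sInf_empty]
    have hg := g_zero_pos
    have hM : 0 ≤ ∫ x, W x := integral_nonneg hW0
    have : 0 ≤ (g 0 * ∫ x, W x) ^ (5 / 3 : ℝ) := by positivity
    linarith

/-- The one-particle bound with constant `g 0`. -/
lemma one_particle {W : ℝ → ℝ} (hW0 : ∀ x, 0 ≤ W x) (hW : Integrable W) :
    (max 0 (-(sInf (minmaxSet W 1)))) ^ (3 / 5 : ℝ) ≤ g 0 * ∫ x, W x := by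
  have hg := g_zero_pos
  have hM : 0 ≤ ∫ x, W x := integral_nonneg hW0
  have h1 := sInf_ge hW0 hW (n := 1) one_ne_zero
  have h2 : max 0 (-(sInf (minmaxSet W 1))) ≤ (g 0 * ∫ x, W x) ^ (5 / 3 : ℝ) :=
    max_le (by positivity) (by linarith)
  calc (max 0 (-(sInf (minmaxSet W 1)))) ^ (3 / 5 : ℝ)
      ≤ ((g 0 * ∫ x, W x) ^ (5 / 3 : ℝ)) ^ (3 / 5 : ℝ) :=
        Real.rpow_le_rpow (le_max_left _ _) h2 (by norm_num)
    _ = g 0 * ∫ x, W x := by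
        rw [← Real.rpow_mul (by positivity)]
        norm_num

/-- Upper bounds for the min-max values from trial subspaces. -/
lemma sInf_le_of_trial {W : ℝ → ℝ} (hW0 : ∀ x, 0 ≤ W x) (hW : Integrable W) {n : ℕ} (hn : n ≠ 0)
    (V : Submodule ℂ 𝓢(ℝ, ℂ)) (hV : Module.finrank ℂ V = n) {l : ℝ}
    (h : ∀ f ∈ V, En W f ≤ -l * N f) : sInf (minmaxSet W n) ≤ -l := by
  have hbdd : BddBelow (minmaxSet W n) := ⟨_, fun t ht => minmax_ge hW0 hW hn ht⟩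
  refine (csInf_le hbdd ⟨V, hV, rfl⟩).trans ?_
  obtain ⟨f, hf, hf1⟩ := exists_normalized (V := V) (by rw [hV]; exact hn)
  refine csSup_le ⟨_, f, hf, hf1, rfl⟩ ?_
  rintro u ⟨f, hf, hf1, rfl⟩
  have h1 := h f hf
  rwa [show N f = 1 from hf1, mul_one] at h1

end Pool.Agent.H8.LT
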