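import Mathlib

set_option autoImplicit false

open MeasureTheory Real Filter Topology
open scoped FourierTransform RealInnerProductSpace

namespace Pool.Agent.H8.LT

/-- The symbol `(2 π |ξ|) ^ (5 / 2)` of `(-Δ) ^ (5 / 4)`. -/
noncomputable def w (ξ : ℝ) : ℝ := (2 * π * |ξ|) ^ (5 / 2 : ℝ)

lemma w_nonneg (ξ : ℝ) : 0 ≤ w ξ := by unfold w; positivity

lemma w_neg (ξ : ℝ) : w (-ξ) = w ξ := by unfold w; rw [abs_neg]

lemma w_zero : w 0 = 0 := by
  unfold w; simp

lemma w_continuous : Continuous w := by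
  unfold w
  exact (continuous_const.mul continuous_abs).rpow_const (fun x => Or.inr (by norm_num))

lemma w_mul {y : ℝ} (hy : 0 ≤ y) (ξ : ℝ) : w (y * ξ) = y ^ (5 / 2 : ℝ) * w ξ := by
  unfold w
  rw [abs_mul, abs_of_nonneg hy, ← Real.mul_rpow hy (by positivity)]
  congr 1; ring

lemma w_ge {ξ : ℝ} (h : 1 ≤ |ξ|) : ξ ^ 2 ≤ w ξ := by
  unfold w
  have h2 : |ξ| ≤ 2 * π * |ξ| := by
    have := Real.pi_gt_three
    nlinarith [abs_nonneg ξ]
  calc ξ ^ 2 = |ξ| ^ (2 : ℝ) := by rw [← sq_abs]; norm_cast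
    _ ≤ |ξ| ^ (5 / 2 : ℝ) := Real.rpow_le_rpow_of_exponent_le h (by norm_num)
    _ ≤ (2 * π * |ξ|) ^ (5 / 2 : ℝ) := Real.rpow_le_rpow (abs_nonneg _) h2 (by norm_num)

/-- The resolvent symbol. -/
noncomputable def R (l ξ : ℝ) : ℝ := 1 / (l + w ξ)

lemma den_pos {l : ℝ} (hl : 0 < l) (ξ : ℝ) : 0 < l + w ξ := by
  have := w_nonneg ξ; linarith

lemma R_pos {l : ℝ} (hl : 0 < l) (ξ : ℝ) : 0 < R l ξ := by
  unfold R; exact one_div_pos.2 (den_pos hl ξ)

lemma R_neg (l ξ : ℝ) : R l (-ξ) = R l ξ := by unfold R; rw [w_neg]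

lemma R_continuous {l : ℝ} (hl : 0 < l) : Continuous (R l) := by
  unfold R
  exact continuous_const.div (continuous_const.add w_continuous) (fun ξ => (den_pos hl ξ).ne')

lemma den_ge {l : ℝ} (hl : 0 < l) (ξ : ℝ) : min 1 l / 2 * (1 + ξ ^ 2) ≤ l + w ξ := by
  have hm : 0 < min 1 l := lt_min one_pos hl
  have hm1 : min 1 l ≤ 1 := min_le_left _ _
  have hml : min 1 l ≤ l := min_le_right _ _
  have hw := w_nonneg ξ
  rcases le_total 1 |ξ| with h | h
  · have h1 := w_ge h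
    have h2 : 1 ≤ ξ ^ 2 := by rw [← sq_abs]; nlinarith
    nlinarith
  · have h2 : ξ ^ 2 ≤ 1 := by rw [← sq_abs]; nlinarith [abs_nonneg ξ]
    nlinarith

lemma R_le {l : ℝ} (hl : 0 < l) (ξ : ℝ) : R l ξ ≤ (2 / min 1 l) * (1 + ξ ^ 2)⁻¹ := by
  unfold R
  have hm : 0 < min 1 l := lt_min one_pos hl
  have h1 : (2 / min 1 l) * (1 + ξ ^ 2)⁻¹ = 1 / (min 1 l / 2 * (1 + ξ ^ 2)) := by
    have : 0 < 1 + ξ ^ 2 := by positivity
    field_simp
  rw [h1]
  exact one_div_le_one_div_of_le (by positivity) (den_ge hl ξ)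

lemma R_integrable {l : ℝ} (hl : 0 < l) : Integrable (R l) := by
  refine Integrable.mono' (integrable_inv_one_add_sq.const_mul (2 / min 1 l))
    (R_continuous hl).aestronglyMeasurable (Filter.Eventually.of_forall (fun ξ => ?_))
  rw [Real.norm_of_nonneg (R_pos hl ξ).le]
  exact R_le hl ξ

lemma R_mul_integrable {l : ℝ} (hl : 0 < l) {F : ℝ → ℝ} (hF : Continuous F)
    (hF1 : ∀ x, |F x| ≤ 1) : Integrable (fun ξ => F ξ * R l ξ) := by
  refine (R_integrable hl).bdd_mul (c := 1) hF.aestronglyMeasurable ?_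
  exact Filter.Eventually.of_forall (fun ξ => by rw [Real.norm_eq_abs]; exact hF1 ξ)

/-- The Green function of `(-Δ) ^ (5 / 4) + 1`. -/
noncomputable def g (y : ℝ) : ℝ := ∫ ξ, cos (2 * π * y * ξ) * R 1 ξ

lemma g_neg (y : ℝ) : g (-y) = g y := by
  unfold g
  congr 1
  funext ξ
  rw [show 2 * π * (-y) * ξ = -(2 * π * y * ξ) by ring, Real.cos_neg]

lemma g_continuous : Continuous g := by
  unfold g
  refine continuous_of_dominated (bound := R 1) (fun y => ?_) (fun y => ?_) (R_integrable one_pos) ?_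
  · exact ((by fun_prop : Continuous (fun ξ : ℝ => cos (2 * π * y * ξ))).mul
      (R_continuous one_pos)).aestronglyMeasurable
  · refine Filter.Eventually.of_forall (fun ξ => ?_)
    rw [norm_mul, Real.norm_of_nonneg (R_pos one_pos ξ).le, Real.norm_eq_abs]
    exact mul_le_of_le_one_left (R_pos one_pos ξ).le (Real.abs_cos_le_one _)
  · refine Filter.Eventually.of_forall (fun ξ => ?_)
    fun_prop

lemma g_zero_pos : 0 < g 0 := by
  have h : g 0 = ∫ ξ, R 1 ξ := by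
    unfold g
    congr 1
    funext ξ
    simp
  rw [h, integral_pos_iff_support_of_nonneg (fun ξ => (R_pos one_pos ξ).le) (R_integrable one_pos)]
  have : Function.support (R 1) = Set.univ := by
    ext ξ
    simp [(R_pos one_pos ξ).ne']
  rw [this]
  simp

lemma abs_g_le (y : ℝ) : |g y| ≤ g 0 := by
  have h : g 0 = ∫ ξ, R 1 ξ := by
    unfold g
    congr 1
    funext ξ
    simp
  rw [h]
  unfold g
  refine (abs_integral_le_integral_abs).trans ?_
  refine integral_mono_of_nonneg (Filter.Eventually.of_forall (fun ξ => abs_nonneg _))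
    (R_integrable one_pos) (Filter.Eventually.of_forall (fun ξ => ?_))
  simp only
  rw [abs_mul, abs_of_pos (R_pos one_pos ξ)]
  exact mul_le_of_le_one_left (R_pos one_pos ξ).le (Real.abs_cos_le_one _)

/-! ### The Green function takes negative values -/

/-- complexified symbol -/
noncomputable def Rc (ξ : ℝ) : ℂ := ((R 1 ξ : ℝ) : ℂ)

lemma Rc_integrable : Integrable Rc := (R_integrable one_pos).ofReal

lemma Rc_continuous : Continuous Rc := Complex.continuous_ofReal.comp (R_continuous one_pos)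

lemma R_sin_integral (y : ℝ) : ∫ ξ, sin (2 * π * y * ξ) * R 1 ξ = 0 := by
  have h := integral_neg_eq_self (fun ξ => sin (2 * π * y * ξ) * R 1 ξ) volume
  have h2 : (fun ξ => sin (2 * π * y * (-ξ)) * R 1 (-ξ)) =
      fun ξ => - (sin (2 * π * y * ξ) * R 1 ξ) := by
    funext ξ
    rw [R_neg, show 2 * π * y * (-ξ) = -(2 * π * y * ξ) by ring, Real.sin_neg]
    ring
  rw [h2, integral_neg] at h
  linarith

lemma fourier_Rc (y : ℝ) : 𝓕 Rc y = ((g y : ℝ) : ℂ) := by
  rw [Real.fourier_real_eq_integral_exp_smul]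
  have h1 : ∀ ξ : ℝ, Complex.exp (((-2 * π * ξ * y : ℝ) : ℂ) * Complex.I) • Rc ξ =
      ((cos (2 * π * y * ξ) * R 1 ξ : ℝ) : ℂ) -
        Complex.I * ((sin (2 * π * y * ξ) * R 1 ξ : ℝ) : ℂ) := by
    intro ξ
    unfold Rc
    rw [Complex.exp_mul_I, ← Complex.ofReal_cos, ← Complex.ofReal_sin,
      show (-2 * π * ξ * y) = -(2 * π * y * ξ) by ring, Real.cos_neg, Real.sin_neg]
    push_cast
    rw [smul_eq_mul]
    ring
  simp_rw [h1]
  rw [integral_sub]
  · rw [integral_const_mul, integral_complex_ofReal, integral_complex_ofReal, R_sin_integral]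
    simp [g]
  · exact (R_mul_integrable one_pos (by fun_prop) (fun x => Real.abs_cos_le_one _)).ofReal
  · exact ((R_mul_integrable one_pos (by fun_prop)
      (fun x => Real.abs_sin_le_one _)).ofReal).const_mul _

lemma tendsto_key (v : ℝ) : Tendsto (fun c : ℝ =>
    ∫ x : ℝ, Complex.exp (-c⁻¹ * ‖x‖ ^ 2 + 2 * π * Complex.I * (⟪v, x⟫ : ℝ)) • 𝓕 Rc x)
    atTop (𝓝 (Rc v)) := by
  have h := tendsto_integral_gaussian_smul' Rc_integrable (Rc_continuous.continuousAt (x := v))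
  refine h.congr' ?_
  filter_upwards [Ioi_mem_atTop 0] with c hc
  have hc' : (0 : ℝ) < c := hc
  have J : Integrable (fun x : ℝ =>
      Complex.exp (-c⁻¹ * ‖x‖ ^ 2 + 2 * π * Complex.I * (⟪v, x⟫ : ℝ))) :=
    GaussianFourier.integrable_cexp_neg_mul_sq_norm_add (by simpa) _ _
  have h2 := (VectorFourier.integral_fourierIntegral_smul_eq_flip (L := innerₗ ℝ)
      Real.continuous_fourierChar continuous_inner J Rc_integrable)
  have h3 : ∫ x : ℝ, Complex.exp (-c⁻¹ * ‖x‖ ^ 2 + 2 * π * Complex.I * (⟪v, x⟫ : ℝ)) • 𝓕 Rc x =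
      ∫ x : ℝ, 𝓕 (fun x : ℝ => Complex.exp (-c⁻¹ * ‖x‖ ^ 2 +
        2 * π * Complex.I * (⟪v, x⟫ : ℝ))) x • Rc x := by
    simpa using! h2.symm
  rw [h3]
  congr with x
  rw [fourier_gaussian_innerProductSpace' (by simpa)]
  have e1 : (π : ℂ) / ((c⁻¹ : ℝ) : ℂ) = π * c := by simp
  have e2 : -(π : ℂ) ^ 2 * ‖v - x‖ ^ 2 / ((c⁻¹ : ℝ) : ℂ) = -(π : ℂ) ^ 2 * c * ‖v - x‖ ^ 2 := by
    simp; ring
  rw [e1, e2]

/-- Gaussian regularisation. -/
noncomputable def Ic (c v : ℝ) : ℝ := ∫ x : ℝ, (exp (-(c⁻¹ * x ^ 2)) * cos (2 * π * v * x)) * g x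

lemma gauss_integrable {c : ℝ} (hc : 0 < c) : Integrable (fun x : ℝ => exp (-(c⁻¹ * x ^ 2))) := by
  have := integrable_exp_neg_mul_sq (inv_pos.2 hc)
  simpa using this

lemma gauss_mul_integrable {c : ℝ} (hc : 0 < c) {F : ℝ → ℝ} (hF : Continuous F) {C : ℝ}
    (hC : ∀ x, |F x| ≤ C) : Integrable (fun x : ℝ => exp (-(c⁻¹ * x ^ 2)) * F x) := by
  refine (gauss_integrable hc).mul_bdd (c := C) hF.aestronglyMeasurable ?_
  exact Filter.Eventually.of_forall (fun ξ => by rw [Real.norm_eq_abs]; exact hC ξ)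

lemma re_key {c : ℝ} (hc : 0 < c) (v : ℝ) :
    (∫ x : ℝ, Complex.exp (-c⁻¹ * ‖x‖ ^ 2 + 2 * π * Complex.I * (⟪v, x⟫ : ℝ)) • 𝓕 Rc x).re =
      Ic c v := by
  have hpt : ∀ x : ℝ, Complex.exp (-c⁻¹ * ‖x‖ ^ 2 + 2 * π * Complex.I * (⟪v, x⟫ : ℝ)) • 𝓕 Rc x =
      (((exp (-(c⁻¹ * x ^ 2)) * cos (2 * π * v * x)) * g x : ℝ) : ℂ) +
      (((exp (-(c⁻¹ * x ^ 2)) * sin (2 * π * v * x)) * g x : ℝ) : ℂ) * Complex.I := by
    intro x
    rw [fourier_Rc, Complex.exp_add]
    have h1 : Complex.exp (-c⁻¹ * ‖x‖ ^ 2) = ((exp (-(c⁻¹ * x ^ 2)) : ℝ) : ℂ) := by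
      push_cast
      congr 1
      rw [Real.norm_eq_abs]
      have : ((|x| : ℝ) : ℂ) ^ 2 = (x : ℂ) ^ 2 := by
        rw [← Complex.ofReal_pow, sq_abs, Complex.ofReal_pow]
      rw [this]
      ring
    have h2 : Complex.exp (2 * π * Complex.I * (⟪v, x⟫ : ℝ)) =
        ((cos (2 * π * v * x) : ℝ) : ℂ) + ((sin (2 * π * v * x) : ℝ) : ℂ) * Complex.I := by
      rw [Complex.ofReal_cos, Complex.ofReal_sin, ← Complex.exp_mul_I]
      congr 1
      have : (⟪v, x⟫ : ℝ) = v * x := by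
        simp [mul_comm]
      rw [this]
      push_cast
      ring
    rw [h1, h2, smul_eq_mul]
    push_cast
    ring
  simp_rw [hpt]
  have hb : ∀ F : ℝ → ℝ, Continuous F → (∀ x, |F x| ≤ 1) →
      Integrable (fun x : ℝ => (exp (-(c⁻¹ * x ^ 2)) * F x) * g x) := by
    intro F hF hF1
    have h := gauss_mul_integrable hc (F := fun x => F x * g x) (hF.mul g_continuous)
      (C := g 0) (fun x => by
        rw [abs_mul]
        calc |F x| * |g x| ≤ 1 * g 0 :=
              mul_le_mul (hF1 x) (abs_g_le x) (abs_nonneg _) zero_le_one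
          _ = g 0 := one_mul _)
    simpa [mul_assoc] using h
  have i1 := hb (fun x => cos (2 * π * v * x)) (by fun_prop) (fun x => Real.abs_cos_le_one _)
  have i2 := hb (fun x => sin (2 * π * v * x)) (by fun_prop) (fun x => Real.abs_sin_le_one _)
  rw [integral_add i1.ofReal (i2.ofReal.mul_const _), integral_mul_const, integral_complex_ofReal,
    integral_complex_ofReal]
  simp [Ic]

lemma tendsto_Ic (v : ℝ) : Tendsto (fun c : ℝ => Ic c v) atTop (𝓝 (R 1 v)) := by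
  have h := (Complex.continuous_re.tendsto _).comp (tendsto_key v)
  have h2 : (Rc v).re = R 1 v := by simp [Rc]
  rw [h2] at h
  refine h.congr' ?_
  filter_upwards [Ioi_mem_atTop 0] with c hc
  exact re_key hc v

lemma exists_g_neg : ∃ Y : ℝ, 0 < Y ∧ g Y < 0 := by
  by_contra hcon
  push Not at hcon
  have hg : ∀ x, 0 ≤ g x := by
    intro x
    rcases lt_trichotomy x 0 with h | h | h
    · rw [← g_neg]; exact hcon _ (by linarith)
    · rw [h]; exact g_zero_pos.le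
    · exact hcon x h
  -- the inequality `3 φ(0) - 4 φ(t) + φ(2t) ≥ 0`
  have hineq : ∀ t : ℝ, 0 ≤ 3 * R 1 0 - 4 * R 1 t + R 1 (2 * t) := by
    intro t
    have hl := (((tendsto_Ic 0).const_mul 3).sub ((tendsto_Ic t).const_mul 4)).add
      (tendsto_Ic (2 * t))
    refine ge_of_tendsto hl ?_
    filter_upwards [Ioi_mem_atTop 0] with c hc
    have hc' : (0 : ℝ) < c := hc
    have hb : ∀ F : ℝ → ℝ, Continuous F → (∀ x, |F x| ≤ 1) →
        Integrable (fun x : ℝ => (exp (-(c⁻¹ * x ^ 2)) * F x) * g x) := by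
      intro F hF hF1
      have h := gauss_mul_integrable hc' (F := fun x => F x * g x) (hF.mul g_continuous)
        (C := g 0) (fun x => by
          rw [abs_mul]
          calc |F x| * |g x| ≤ 1 * g 0 :=
                mul_le_mul (hF1 x) (abs_g_le x) (abs_nonneg _) zero_le_one
            _ = g 0 := one_mul _)
      simpa [mul_assoc] using h
    have i : ∀ v : ℝ, Integrable (fun x : ℝ => (exp (-(c⁻¹ * x ^ 2)) * cos (2 * π * v * x)) * g x) :=
      fun v => hb (fun x => cos (2 * π * v * x)) (by fun_prop) (fun x => Real.abs_cos_le_one _)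
    unfold Ic
    have hadd := integral_add (((i 0).const_mul 3).sub ((i t).const_mul 4)) (i (2 * t))
    rw [← integral_const_mul, ← integral_const_mul, ← integral_sub ((i 0).const_mul 3)
      ((i t).const_mul 4)]
    refine le_of_le_of_eq ?_ hadd
    refine integral_nonneg (fun x => ?_)
    have h1 : cos (2 * π * (2 * t) * x) = 2 * cos (2 * π * t * x) ^ 2 - 1 := by
      rw [← Real.cos_two_mul]; ring_nf
    have h2 : cos (2 * π * 0 * x) = 1 := by simp
    simp only [Pi.zero_apply, Pi.sub_apply]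
    rw [h1, h2]
    have h3 : 3 * (exp (-(c⁻¹ * x ^ 2)) * 1 * g x) - 4 * (exp (-(c⁻¹ * x ^ 2)) *
        cos (2 * π * t * x) * g x) + exp (-(c⁻¹ * x ^ 2)) * (2 * cos (2 * π * t * x) ^ 2 - 1) * g x
        = exp (-(c⁻¹ * x ^ 2)) * g x * (2 * (1 - cos (2 * π * t * x)) ^ 2) := by ring
    rw [h3]
    have := hg x
    positivity
  have h := hineq (1 / (8 * π))
  have hw1 : w (1 / (8 * π)) = 1 / 32 := by
    unfold w
    rw [abs_of_pos (by positivity)]
    have : 2 * π * (1 / (8 * π)) = (1 / 2) ^ (2 : ℝ) := by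
      have := Real.pi_pos
      field_simp
      norm_num
    rw [this, ← Real.rpow_mul (by norm_num)]
    norm_num
  have hw2 : w (2 * (1 / (8 * π))) = w (1 / (8 * π)) * 2 ^ (5 / 2 : ℝ) := by
    rw [w_mul (by norm_num)]; ring
  have h5 : (16 / 3 : ℝ) ≤ 2 ^ (5 / 2 : ℝ) := by
    have h6 : ((2 : ℝ) ^ (5 / 2 : ℝ)) ^ 2 = 32 := by
      rw [← Real.rpow_natCast, ← Real.rpow_mul (by norm_num)]
      norm_num
    have h7 : (0 : ℝ) ≤ 2 ^ (5 / 2 : ℝ) := by positivity
    nlinarith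
  have h6 : 1 / 6 ≤ w (2 * (1 / (8 * π))) := by rw [hw2, hw1]; linarith
  have h7 : R 1 (2 * (1 / (8 * π))) ≤ 6 / 7 := by
    unfold R
    rw [div_le_div_iff₀ (by linarith) (by norm_num)]
    linarith
  have h8 : R 1 (1 / (8 * π)) = 32 / 33 := by
    unfold R; rw [hw1]; norm_num
  have h9 : R 1 0 = 1 := by unfold R; rw [w_zero]; norm_num
  rw [h8, h9] at h
  linarith

end Pool.Agent.H8.LT
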