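import Pool.Agent.H8.LTBound

set_option autoImplicit false

open MeasureTheory Real Filter Topology
open scoped FourierTransform RealInnerProductSpace SchwartzMap ContDiff

namespace Pool.Agent.H8.LT

/-- Smooth majorants of the symbol. -/
noncomputable def wn (n : ℕ) (ξ : ℝ) : ℝ :=
  (2 * π) ^ (5 / 2 : ℝ) * (ξ ^ 2 + (1 / ((n : ℝ) + 1)) ^ 2) ^ (5 / 4 : ℝ)

lemma w_eq (ξ : ℝ) : w ξ = (2 * π) ^ (5 / 2 : ℝ) * (ξ ^ 2) ^ (5 / 4 : ℝ) := by
  unfold w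
  rw [Real.mul_rpow (by positivity) (abs_nonneg _)]
  congr 1
  rw [← sq_abs, ← Real.rpow_natCast, ← Real.rpow_mul (abs_nonneg _)]
  norm_num

lemma w_le_wn (n : ℕ) (ξ : ℝ) : w ξ ≤ wn n ξ := by
  rw [w_eq]
  unfold wn
  apply mul_le_mul_of_nonneg_left _ (by positivity)
  apply Real.rpow_le_rpow (by positivity) _ (by norm_num)
  have : 0 ≤ (1 / ((n : ℝ) + 1)) ^ 2 := by positivity
  linarith

lemma wn_neg (n : ℕ) (ξ : ℝ) : wn n (-ξ) = wn n ξ := by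
  unfold wn; rw [neg_sq]

lemma wn_contDiff (n : ℕ) : ContDiff ℝ ∞ (wn n) := by
  unfold wn
  refine contDiff_const.mul (ContDiff.rpow_const_of_ne ?_ (fun x => ?_))
  · fun_prop
  · positivity

lemma tendsto_wn (ξ : ℝ) : Tendsto (fun n => wn n ξ) atTop (𝓝 (w ξ)) := by
  rw [w_eq]
  unfold wn
  refine Tendsto.const_mul _ ?_
  have h1 : Tendsto (fun n : ℕ => ξ ^ 2 + (1 / ((n : ℝ) + 1)) ^ 2) atTop (𝓝 (ξ ^ 2)) := by
    have := (tendsto_one_div_add_atTop_nhds_zero_nat (𝕜 := ℝ)).pow 2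
    have h2 := this.const_add (ξ ^ 2)
    simpa using h2
  exact ((Real.continuous_rpow_const (by norm_num : (0 : ℝ) ≤ 5 / 4)).tendsto _).comp h1

/-- Cut-off functions. -/
noncomputable def chi (n : ℕ) : ContDiffBump (0 : ℝ) where
  rIn := (n : ℝ) + 1
  rOut := (n : ℝ) + 2
  rIn_pos := by positivity
  rIn_lt_rOut := by linarith

/-- Smooth compactly supported minorants of the resolvent symbol. -/
noncomputable def etan (l : ℝ) (n : ℕ) (ξ : ℝ) : ℝ := chi n ξ * (1 / (l + wn n ξ))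

lemma etan_nonneg {l : ℝ} (hl : 0 < l) (n : ℕ) (ξ : ℝ) : 0 ≤ etan l n ξ := by
  have h1 := w_nonneg ξ
  have h2 := w_le_wn n ξ
  exact mul_nonneg (chi n).nonneg (one_div_nonneg.2 (by linarith))

lemma etan_le {l : ℝ} (hl : 0 < l) (n : ℕ) (ξ : ℝ) : etan l n ξ ≤ R l ξ := by
  have h1 := w_nonneg ξ
  have h2 := w_le_wn n ξ
  unfold etan R
  calc chi n ξ * (1 / (l + wn n ξ)) ≤ 1 * (1 / (l + wn n ξ)) :=
        mul_le_mul_of_nonneg_right (chi n).le_one (one_div_nonneg.2 (by linarith))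
    _ = 1 / (l + wn n ξ) := one_mul _
    _ ≤ 1 / (l + w ξ) := one_div_le_one_div_of_le (by linarith) (by linarith)

lemma etan_neg (l : ℝ) (n : ℕ) (ξ : ℝ) : etan l n (-ξ) = etan l n ξ := by
  unfold etan
  rw [wn_neg, ContDiffBump.neg]

lemma etan_contDiff {l : ℝ} (hl : 0 < l) (n : ℕ) : ContDiff ℝ ∞ (etan l n) := by
  unfold etan
  refine (chi n).contDiff.mul (contDiff_const.div (contDiff_const.add (wn_contDiff n)) ?_)
  intro ξ
  have h1 := w_nonneg ξ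
  have h2 := w_le_wn n ξ
  have : 0 < l + wn n ξ := by linarith
  exact this.ne'

lemma etan_compact (l : ℝ) (n : ℕ) : HasCompactSupport (etan l n) :=
  (chi n).hasCompactSupport.mul_right

lemma tendsto_etan {l : ℝ} (hl : 0 < l) (ξ : ℝ) :
    Tendsto (fun n => etan l n ξ) atTop (𝓝 (R l ξ)) := by
  unfold etan R
  have h1 : Tendsto (fun n => chi n ξ) atTop (𝓝 1) := by
    refine tendsto_const_nhds.congr' ?_
    obtain ⟨m, hm⟩ := exists_nat_ge |ξ|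
    filter_upwards [eventually_ge_atTop m] with n hn
    symm
    apply (chi n).one_of_mem_closedBall
    rw [Metric.mem_closedBall, dist_zero_right, Real.norm_eq_abs]
    have : (m : ℝ) ≤ n := by exact_mod_cast hn
    change |ξ| ≤ (n : ℝ) + 1
    linarith
  have h2 := (tendsto_wn ξ).const_add l
  have h3 := (tendsto_const_nhds (x := (1 : ℝ))).div h2 (den_pos hl ξ).ne'
  simpa using h1.mul h3

lemma exists_eta {l : ℝ} (hl : 0 < l) {F : ℝ → ℝ} (hF : Continuous F) (hF1 : ∀ x, |F x| ≤ 1)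
    {A : ℝ} (hA : A < ∫ ξ, F ξ * R l ξ) :
    ∃ η : ℝ → ℝ, ContDiff ℝ ∞ η ∧ HasCompactSupport η ∧ (∀ ξ, η (-ξ) = η ξ) ∧
      (∀ ξ, 0 ≤ η ξ) ∧ (∀ ξ, η ξ ≤ R l ξ) ∧ A < ∫ ξ, F ξ * η ξ := by
  have hlim : Tendsto (fun n => ∫ ξ, F ξ * etan l n ξ) atTop (𝓝 (∫ ξ, F ξ * R l ξ)) := by
    refine tendsto_integral_of_dominated_convergence (R l) (fun n => ?_) (R_integrable hl)
      (fun n => ?_) ?_
    · exact (hF.mul (etan_contDiff hl n).continuous).aestronglyMeasurable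
    · refine Filter.Eventually.of_forall (fun ξ => ?_)
      rw [norm_mul, Real.norm_eq_abs, Real.norm_of_nonneg (etan_nonneg hl n ξ)]
      calc |F ξ| * etan l n ξ ≤ 1 * R l ξ :=
            mul_le_mul (hF1 ξ) (etan_le hl n ξ) (etan_nonneg hl n ξ) zero_le_one
        _ = R l ξ := one_mul _
    · exact Filter.Eventually.of_forall (fun ξ => (tendsto_etan hl ξ).const_mul _)
  obtain ⟨n, hn⟩ := (hlim.eventually (lt_mem_nhds hA)).exists
  exact ⟨etan l n, etan_contDiff hl n, etan_compact l n, etan_neg l n, etan_nonneg hl n,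
    etan_le hl n, hn⟩

/-- Construction of a trial function. -/
lemma trial {l a : ℝ} (hl : 0 < l) {q : ℝ → ℝ} (hq : ContDiff ℝ ∞ q) (hq1 : ∀ x, |q x| ≤ 1)
    {σ : ℝ} (hpar : ∀ ξ, q (-ξ) = σ * q ξ)
    (hcase : (∀ ξ, q ξ = cos (π * ξ)) ∨ (∀ ξ, q ξ = sin (π * ξ)))
    (hint : 1 < 2 * a * ∫ ξ, q ξ ^ 2 * R l ξ) (ha : 0 < a) :
    ∃ (f : 𝓢(ℝ, ℂ)) (J : ℝ), 0 < J ∧ 1 < 2 * a * J ∧ l * N f + K f ≤ J ∧
      J ≤ ‖f (1 / 2)‖ ∧ J ≤ ‖f (-(1 / 2))‖ ∧ (∀ x, f (-x) = (σ : ℂ) * f x) ∧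
      (∀ ξ, (𝓕 f : 𝓢(ℝ, ℂ)) (-ξ) = (σ : ℂ) * (𝓕 f : 𝓢(ℝ, ℂ)) ξ) := by
  have hq2 : ∀ x, |q x ^ 2| ≤ 1 := fun x => by
    rw [abs_pow]; exact pow_le_one₀ (abs_nonneg _) (hq1 x)
  have hA : 1 / (2 * a) < ∫ ξ, q ξ ^ 2 * R l ξ := by
    rw [div_lt_iff₀ (by positivity)]; linarith
  obtain ⟨η, hη1, hη2, hη3, hη4, hη5, hη6⟩ :=
    exists_eta hl (F := fun ξ => q ξ ^ 2) (hq.continuous.pow 2) hq2 hA
  -- the Fourier transform of the trial function
  have hs : ContDiff ℝ ∞ (fun ξ => ((q ξ * η ξ : ℝ) : ℂ)) :=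
    Complex.ofRealCLM.contDiff.comp (hq.mul hη1)
  have hc : HasCompactSupport (fun ξ => ((q ξ * η ξ : ℝ) : ℂ)) := by
    have : HasCompactSupport (fun ξ => q ξ * η ξ) := hη2.mul_left
    exact this.comp_left (g := fun x : ℝ => (x : ℂ)) Complex.ofReal_zero
  set H : 𝓢(ℝ, ℂ) := hc.toSchwartzMap hs with hH
  have hHa : ∀ ξ, H ξ = ((q ξ * η ξ : ℝ) : ℂ) := fun ξ => rfl
  have hFf : (𝓕 (𝓕⁻ H : 𝓢(ℝ, ℂ)) : 𝓢(ℝ, ℂ)) = H := FourierTransform.fourier_fourierInv_eq H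
  have hqη : Integrable (fun ξ => q ξ * η ξ) :=
    (hq.continuous.mul hη1.continuous).integrable_of_hasCompactSupport hη2.mul_left
  have hint2 : ∀ F : ℝ → ℝ, Continuous F → Integrable (fun ξ => F ξ * (q ξ * η ξ)) :=
    fun F hF => (hF.mul (hq.continuous.mul hη1.continuous)).integrable_of_hasCompactSupport
      (hη2.mul_left.mul_left)
  -- values of the trial function
  have hval : ∀ x, (𝓕⁻ H : 𝓢(ℝ, ℂ)) x = ((∫ ξ, cos (2 * π * x * ξ) * (q ξ * η ξ) : ℝ) : ℂ) +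
      ((∫ ξ, sin (2 * π * x * ξ) * (q ξ * η ξ) : ℝ) : ℂ) * Complex.I := by
    intro x
    rw [SchwartzMap.fourierInv_coe, Real.fourierInv_eq']
    have h1 : ∀ ξ : ℝ, Complex.exp ((↑(2 * π * ⟪ξ, x⟫) * Complex.I)) • H ξ =
        ((cos (2 * π * x * ξ) * (q ξ * η ξ) : ℝ) : ℂ) +
          ((sin (2 * π * x * ξ) * (q ξ * η ξ) : ℝ) : ℂ) * Complex.I := by
      intro ξ
      rw [hHa, Complex.exp_mul_I, ← Complex.ofReal_cos, ← Complex.ofReal_sin, smul_eq_mul]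
      have h2 : 2 * π * (⟪ξ, x⟫ : ℝ) = 2 * π * x * ξ := by
        simp; ring
      rw [h2]
      push_cast
      ring
    simp_rw [h1]
    rw [integral_add, integral_mul_const, integral_complex_ofReal, integral_complex_ofReal]
    · exact (hint2 (fun ξ => cos (2 * π * x * ξ)) (by fun_prop)).ofReal
    · exact (hint2 (fun ξ => sin (2 * π * x * ξ)) (by fun_prop)).ofReal.mul_const _
  set J : ℝ := ∫ ξ, q ξ ^ 2 * η ξ with hJ
  have hJ1 : 1 < 2 * a * J := by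
    rw [div_lt_iff₀ (by positivity)] at hη6
    linarith
  have hJpos : 0 < J := by
    by_contra hcon
    push Not at hcon
    nlinarith
  have hre : ∀ x, ((𝓕⁻ H : 𝓢(ℝ, ℂ)) x).re = ∫ ξ, cos (2 * π * x * ξ) * (q ξ * η ξ) := by
    intro x; rw [hval]; simp
  have him : ∀ x, ((𝓕⁻ H : 𝓢(ℝ, ℂ)) x).im = ∫ ξ, sin (2 * π * x * ξ) * (q ξ * η ξ) := by
    intro x; rw [hval]; simp
  have hlow : J ≤ ‖(𝓕⁻ H : 𝓢(ℝ, ℂ)) (1 / 2)‖ ∧ J ≤ ‖(𝓕⁻ H : 𝓢(ℝ, ℂ)) (-(1 / 2))‖ := by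
    rcases hcase with hcs | hcs
    · have h1 : ((𝓕⁻ H : 𝓢(ℝ, ℂ)) (1 / 2)).re = J := by
        rw [hre, hJ]
        congr 1; funext ξ
        rw [show 2 * π * (1 / 2) * ξ = π * ξ by ring, ← hcs]; ring
      have h2 : ((𝓕⁻ H : 𝓢(ℝ, ℂ)) (-(1 / 2))).re = J := by
        rw [hre, hJ]
        congr 1; funext ξ
        rw [show 2 * π * (-(1 / 2)) * ξ = -(π * ξ) by ring, Real.cos_neg, ← hcs]; ring
      constructor
      · rw [← h1]; exact Complex.re_le_norm _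
      · rw [← h2]; exact Complex.re_le_norm _
    · have h1 : ((𝓕⁻ H : 𝓢(ℝ, ℂ)) (1 / 2)).im = J := by
        rw [him, hJ]
        congr 1; funext ξ
        rw [show 2 * π * (1 / 2) * ξ = π * ξ by ring, ← hcs]; ring
      have h2 : ((𝓕⁻ H : 𝓢(ℝ, ℂ)) (-(1 / 2))).im = -J := by
        rw [him, hJ, ← integral_neg]
        congr 1; funext ξ
        rw [show 2 * π * (-(1 / 2)) * ξ = -(π * ξ) by ring, Real.sin_neg, ← hcs]; ring
      constructor
      · rw [← h1]; exact Complex.im_le_norm _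
      · have h3 := Complex.abs_im_le_norm ((𝓕⁻ H : 𝓢(ℝ, ℂ)) (-(1 / 2)))
        rw [h2, abs_neg, abs_of_pos hJpos] at h3
        exact h3
  refine ⟨𝓕⁻ H, J, hJpos, hJ1, ?_, hlow.1, hlow.2, ?_, ?_⟩
  · rw [← energy_l, hFf, hJ]
    refine integral_mono_of_nonneg (Filter.Eventually.of_forall (fun ξ => ?_)) ?_
      (Filter.Eventually.of_forall (fun ξ => ?_))
    · have := w_nonneg ξ
      simp only [Pi.zero_apply]
      positivity
    · exact ((hq.continuous.pow 2).mul hη1.continuous).integrable_of_hasCompactSupport hη2.mul_left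
    · simp only
      rw [hHa, Complex.norm_real, Real.norm_eq_abs, sq_abs]
      have h1 := hη5 ξ
      have h2 : (l + w ξ) * η ξ ≤ 1 := by
        unfold R at h1
        rw [le_div_iff₀ (den_pos hl ξ)] at h1
        linarith
      calc (l + w ξ) * (q ξ * η ξ) ^ 2 = q ξ ^ 2 * η ξ * ((l + w ξ) * η ξ) := by ring
        _ ≤ q ξ ^ 2 * η ξ * 1 := mul_le_mul_of_nonneg_left h2 (by have := hη4 ξ; positivity)
        _ = q ξ ^ 2 * η ξ := mul_one _
  · intro x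
    rw [hval, hval]
    have h1 : ∫ ξ, cos (2 * π * (-x) * ξ) * (q ξ * η ξ) =
        σ * ∫ ξ, cos (2 * π * x * ξ) * (q ξ * η ξ) := by
      rw [← integral_neg_eq_self, ← integral_const_mul]
      congr 1; funext ξ
      rw [hpar, hη3, show 2 * π * (-x) * (-ξ) = 2 * π * x * ξ by ring]; ring
    have h2 : ∫ ξ, sin (2 * π * (-x) * ξ) * (q ξ * η ξ) =
        σ * ∫ ξ, sin (2 * π * x * ξ) * (q ξ * η ξ) := by
      rw [← integral_neg_eq_self, ← integral_const_mul]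
      congr 1; funext ξ
      rw [hpar, hη3, show 2 * π * (-x) * (-ξ) = 2 * π * x * ξ by ring]; ring
    rw [h1, h2]
    push_cast
    ring
  · intro ξ
    rw [hFf, hHa, hHa, hpar, hη3]
    push_cast
    ring

end Pool.Agent.H8.LT
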